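import Pool.Agent.Helper32_ABCT.Api3

/-!
# ABCT, modules GDS and GTS: condition (G) for direct sums and 2-sums
-/

set_option autoImplicit false

open MvPolynomial

namespace ABCT.H1

open ABCT FlatCell

section Mon

variable {K : Type*} [Field K] {M M' : Finset (Finset ℕ)} {p p' : Finset ℕ → K}

/-- transfer of degree zero monomials -/
theorem mon_transfer (hp' : ∀ I ∈ M', p' I ≠ 0) (n : Finset ℕ → ℤ) (hn : ∑ I ∈ M, n I = 0)
    (ι : Finset ℕ → Finset ℕ) (hι : ∀ J ∈ M, ι J ∈ M') (c : K) (hc : c ≠ 0)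
    (h : ∀ J ∈ M, p J = c * p' (ι J)) : ∏ J ∈ M, p J ^ n J ∈ Mon M' p' := by
  classical
  rcases M.eq_empty_or_nonempty with rfl | ⟨J0, hJ0⟩
  · simpa using mon_one
  · have h0 := hp' _ (hι J0 hJ0)
    have e : ∏ J ∈ M, p J ^ n J = ∏ J ∈ M, (p' (ι J) / p' (ι J0)) ^ n J := by
      have e1 : ∏ J ∈ M, (c * p' (ι J0)) ^ n J = 1 := by
        rw [← zpow_sum₀ (mul_ne_zero hc h0), hn, zpow_zero]
      rw [← mul_one (∏ J ∈ M, (p' (ι J) / p' (ι J0)) ^ n J), ← e1, ← Finset.prod_mul_distrib]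
      apply Finset.prod_congr rfl
      intro J hJ
      rw [h J hJ, ← mul_zpow]
      congr 1
      field_simp
    rw [e]
    exact mon_prod hp' _ _ fun J hJ => mon_zpow hp' (mon_quot hp' (hι J hJ) (hι J0 hJ0)) _

end Mon

theorem lift_mono {V W : Type} (ι : V ↪ W) (a : V →₀ ℕ) :
    liftF ι (lmono xx (zexp a)) = (a.mapDomain ι).prod fun v n => xx v ^ n := by
  rw [lmono_map, lmono_zexp, Finsupp.prod_mapDomain_index (by simp) (by
    intro v m n; exact pow_add _ _ _)]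
  exact Finsupp.prod_congr fun v _ => by rw [liftF_x]

theorem lift_mono_ne {V W : Type} (ι : V ↪ W) (a : V →₀ ℕ) :
    liftF ι (lmono xx (zexp a)) ≠ 0 := by
  rw [Ne, map_eq_zero]
  exact lmono_ne_zero _ xx_ne_zero _

theorem xprod_add {V : Type} (a b : V →₀ ℕ) :
    ((a + b).prod fun v n => (xx v : Fr V) ^ n) =
      (a.prod fun v n => xx v ^ n) * b.prod fun v n => xx v ^ n := by
  classical
  rw [Finsupp.prod_add_index]
  · intro v _; simp
  · intro v _ m n; exact pow_add _ _ _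

theorem P_ne {S : Net} (hS : S.Valid) (I : Finset ℕ) (hI : I ∈ S.M) : S.flat.P I ≠ 0 :=
  P_ne_zero _ I (((Net.wf' S hS).ne I).mpr hI)

theorem gds : GdsumStmt := by
  intro S T hV hS hT I hI μ hμ
  obtain ⟨J, hJ, K, hK, rfl⟩ := (dsum_M I).mp hI
  obtain ⟨a, ha, b, hb, rfl⟩ := (dsum_exp hV J K hJ hK μ).mp hμ
  have hp' : ∀ I ∈ (Net.dsum S T).M, (Net.dsum S T).flat.P I ≠ 0 := fun I hI => P_ne hV I hI
  have e : (Net.dsum S T).flat.P (J ∪ K) /
      (Net.dsum S T).flat.mono (zexp (a.mapDomain (vdL S T) + b.mapDomain (vdR S T))) =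
      liftF (vdL S T) (S.flat.P J / S.flat.mono (zexp a)) *
      liftF (vdR S T) (T.flat.P K / T.flat.mono (zexp b)) := by
    rw [dsum_P hV J K hJ hK, mono_eq, mono_eq, mono_eq, lmono_zexp, xprod_add, ← lift_mono,
      ← lift_mono, map_div₀, map_div₀, div_mul_div_comm]
  have lK : liftF (vdR S T) (T.flat.P K) ≠ 0 := by
    rw [Ne, map_eq_zero]; exact P_ne hV.2.1 K hK
  have lJ : liftF (vdL S T) (S.flat.P J) ≠ 0 := by
    rw [Ne, map_eq_zero]; exact P_ne hV.1 J hJ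
  rw [show (Net.dsum S T).flat.M = (Net.dsum S T).M from rfl, e]
  apply mon_mul hp'
  · obtain ⟨n, hn, h⟩ := hS J hJ a ha
    rw [h, map_prod]
    simp only [map_zpow₀]
    exact mon_transfer (p := fun J => liftF (vdL S T) (S.flat.P J)) hp' n hn (fun J' => J' ∪ K)
      (fun J' hJ' => (dsum_M _).mpr ⟨J', hJ', K, hK, rfl⟩) (liftF (vdR S T) (T.flat.P K))⁻¹
      (inv_ne_zero lK) (fun J' hJ' => by
        show _ = _ * (Net.dsum S T).flat.P (J' ∪ K)
        rw [dsum_P hV J' K hJ' hK]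
        field_simp)
  · obtain ⟨n, hn, h⟩ := hT K hK b hb
    rw [h, map_prod]
    simp only [map_zpow₀]
    exact mon_transfer (p := fun K => liftF (vdR S T) (T.flat.P K)) hp' n hn (fun K' => J ∪ K')
      (fun K' hK' => (dsum_M _).mpr ⟨J, hJ, K', hK', rfl⟩) (liftF (vdL S T) (S.flat.P J))⁻¹
      (inv_ne_zero lJ) (fun K' hK' => by
        show _ = _ * (Net.dsum S T).flat.P (J ∪ K')
        rw [dsum_P hV J K' hJ hK']
        field_simp)

/-- the exponent of the label `q` in `p_S(I)` -/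
theorem exp_label (U : FlatCell) (I : Finset ℕ) (q : ℕ) (a : U.V →₀ ℕ)
    (ha : a ∈ (U.pol I).support) : a (Sum.inl q) = if q ∈ I then 1 else 0 := by
  classical
  rw [FlatCell.pol, natpoly_support_mul] at ha
  obtain ⟨b, hb, c, hc, rfl⟩ := ha
  have h1 : c (Sum.inl q) = 0 := by
    rw [support_rename_of_injective Sum.inr_injective, Finset.mem_image] at hc
    obtain ⟨d, -, rfl⟩ := hc
    rw [Finsupp.mapDomain_of_notMem_range]
    simp
  have h2 : (∏ i ∈ I, (X (Sum.inl i) : MvPolynomial U.V ℕ)) =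
      monomial (∑ i ∈ I, Finsupp.single (Sum.inl i) 1) 1 := by
    rw [monomial_sum_one]
    rfl
  rw [h2] at hb
  have hb' : b = ∑ i ∈ I, Finsupp.single (Sum.inl i) 1 := by
    have := support_monomial_subset hb
    simpa using this
  rw [Finsupp.add_apply, h1, add_zero, hb', Finsupp.finsetSum_apply]
  simp [Finsupp.single_apply]

/-- label scaling of monomials -/
theorem scal_mono (U : FlatCell) (q : ℕ) (a : U.V →₀ ℕ) :
    scal (two U q) (two_ne U q) (U.mono (zexp a)) = 2 ^ (a (Sum.inl q)) * U.mono (zexp a) := by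
  classical
  rw [mono_eq, lmono_map]
  simp only [scal_x]
  rw [lmono_mul]
  congr 1
  rw [lmono_zexp, Finsupp.prod]
  by_cases hq : (Sum.inl q : U.V) ∈ a.support
  · rw [Finset.prod_eq_single_of_mem _ hq]
    · have h2 : algebraMap ℂ (Fr U.V) (two U q (Sum.inl q)) = 2 := by
        simp only [two, if_true]
        exact map_ofNat _ 2
      rw [h2]
    · intro v _ hv
      rcases v with i | h
      · have : i ≠ q := fun h => hv (by rw [h])
        simp [two, this]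
      · simp [two]
  · rw [Finsupp.notMem_support_iff.mp hq, pow_zero]
    apply Finset.prod_eq_one
    intro v hv
    rcases v with i | h
    · have : i ≠ q := by rintro rfl; exact hq hv
      simp [two, this]
    · simp [two]

/-- the exponents of `P_J / x^a` add up to zero over the bases containing `q` -/
theorem deg_zero {S : Net} (hV : S.Valid) (q : ℕ) (J : Finset ℕ) (a : S.flat.V →₀ ℕ)
    (ha : a ∈ (S.flat.pol J).support) (n : Finset ℕ → ℤ)
    (h : S.flat.P J / S.flat.mono (zexp a) = ∏ I ∈ S.M, S.flat.P I ^ n I) :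
    ∑ I ∈ S.M.filter (fun I => q ∈ I), n I = 0 := by
  apply mon_deg (M := S.M) (p := S.flat.P) (scal (two S.flat q) (two_ne S.flat q)) q
    (fun I hI => P_ne hV I hI) (fun I _ => scal_two_flatP S.flat q I)
  rw [← h, map_div₀, scal_two_flatP, scal_mono, exp_label S.flat J q a ha, zpow_zero, one_mul]
  split_ifs
  · rw [pow_one, mul_div_mul_left _ _ (two_ne_zero)]
  · rw [pow_zero, one_mul, one_mul]

theorem gts : GtsumStmt := by
  classical
  intro S T q hV hS hT I hI μ hμ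
  obtain ⟨J, hJ, K, hK, hq, rfl⟩ := (tsum_M I).mp hI
  obtain ⟨a, ha, b, hb, hab⟩ := (tsum_exp hV J K hJ hK hq μ).mp hμ
  have hp' : ∀ I ∈ (Net.tsum S T q).M, (Net.tsum S T q).flat.P I ≠ 0 := fun I hI => P_ne hV I hI
  have hx : (xx (Sum.inl q) : (Net.tsum S T q).flat.F) ≠ 0 := xx_ne_zero _
  have e : (Net.tsum S T q).flat.P ((J ∪ K).erase q) / (Net.tsum S T q).flat.mono (zexp μ) =
      liftF (vtL S T q) (S.flat.P J / S.flat.mono (zexp a)) *
      liftF (vtR S T q) (T.flat.P K / T.flat.mono (zexp b)) := by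
    have h1 := tsum_P hV J K hJ hK hq
    have h2 : (Net.tsum S T q).flat.mono (zexp μ) * xx (Sum.inl q) =
        liftF (vtL S T q) (S.flat.mono (zexp a)) * liftF (vtR S T q) (T.flat.mono (zexp b)) := by
      rw [mono_eq, mono_eq, mono_eq, lift_mono, lift_mono, ← xprod_add, ← hab, xprod_add,
        lmono_zexp]
      congr 1
      rw [Finsupp.prod_single_index (by simp), pow_one]
    rw [map_div₀, map_div₀, div_mul_div_comm, ← h1, ← h2, mul_div_mul_right _ _ hx]
  obtain ⟨v1, v2, r1, r2, q1, q2, hd, h8⟩ := id hV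
  have hTne : ∀ J ∈ S.M, q ∈ J → ∃ K ∈ T.M, q ∉ K := by
    intro J hJ hqJ
    rcases h8 with h | h | h
    · exact h.2.2
    · exact absurd hqJ (h.1 J hJ)
    · obtain ⟨K, hK⟩ := (Net.wf' T v2).nonempty
      exact ⟨K, hK, h.2 K hK⟩
  have hTne' : ∀ J ∈ S.M, q ∉ J → ∃ K ∈ T.M, q ∈ K := by
    intro J hJ hqJ
    rcases h8 with h | h | h
    · exact h.2.1
    · obtain ⟨K, hK⟩ := (Net.wf' T v2).nonempty
      exact ⟨K, hK, h.2 K hK⟩
    · exact absurd (h.1 J hJ) hqJ
  have hSne : ∀ K ∈ T.M, q ∈ K → ∃ J ∈ S.M, q ∉ J := by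
    intro K hK hqK
    rcases h8 with h | h | h
    · exact h.1.2
    · obtain ⟨J, hJ⟩ := (Net.wf' S v1).nonempty
      exact ⟨J, hJ, h.1 J hJ⟩
    · exact absurd hqK (h.2 K hK)
  have hSne' : ∀ K ∈ T.M, q ∉ K → ∃ J ∈ S.M, q ∈ J := by
    intro K hK hqK
    rcases h8 with h | h | h
    · exact h.1.1
    · exact absurd (h.2 K hK) hqK
    · obtain ⟨J, hJ⟩ := (Net.wf' S v1).nonempty
      exact ⟨J, hJ, h.1 J hJ⟩
  have lK : ∀ K ∈ T.M, liftF (vtR S T q) (T.flat.P K) ≠ 0 := by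
    intro K hK
    rw [Ne, map_eq_zero]; exact P_ne v2 K hK
  have lJ : ∀ J ∈ S.M, liftF (vtL S T q) (S.flat.P J) ≠ 0 := by
    intro J hJ
    rw [Ne, map_eq_zero]; exact P_ne v1 J hJ
  -- transfer from the left
  have trL : ∀ (P : Finset ℕ → Prop) [DecidablePred P] (K₀ : Finset ℕ), K₀ ∈ T.M →
      (∀ J ∈ S.M, P J → Xq q J K₀) → ∀ n : Finset ℕ → ℤ, ∑ I ∈ S.M.filter P, n I = 0 →
      ∏ J ∈ S.M.filter P, liftF (vtL S T q) (S.flat.P J) ^ n J ∈
        Mon (Net.tsum S T q).M (Net.tsum S T q).flat.P := by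
    intro P _ K₀ hK₀ hP n hn
    refine mon_transfer (p := fun J => liftF (vtL S T q) (S.flat.P J)) hp' n hn
      (fun J' => (J' ∪ K₀).erase q)
      (fun J' hJ' => (tsum_M _).mpr ⟨J', (Finset.mem_filter.mp hJ').1, K₀, hK₀,
        hP J' (Finset.mem_filter.mp hJ').1 (Finset.mem_filter.mp hJ').2, rfl⟩)
      (xx (Sum.inl q) / liftF (vtR S T q) (T.flat.P K₀)) (div_ne_zero hx (lK K₀ hK₀)) ?_
    intro J' hJ'
    rw [Finset.mem_filter] at hJ'
    have h1 := tsum_P hV J' K₀ hJ'.1 hK₀ (hP J' hJ'.1 hJ'.2)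
    have h2 := lK K₀ hK₀
    rw [div_mul_eq_mul_div, eq_div_iff h2, ← h1, mul_comm]
  have trR : ∀ (P : Finset ℕ → Prop) [DecidablePred P] (J₀ : Finset ℕ), J₀ ∈ S.M →
      (∀ K ∈ T.M, P K → Xq q J₀ K) → ∀ n : Finset ℕ → ℤ, ∑ I ∈ T.M.filter P, n I = 0 →
      ∏ K ∈ T.M.filter P, liftF (vtR S T q) (T.flat.P K) ^ n K ∈
        Mon (Net.tsum S T q).M (Net.tsum S T q).flat.P := by
    intro P _ J₀ hJ₀ hP n hn
    refine mon_transfer (p := fun K => liftF (vtR S T q) (T.flat.P K)) hp' n hn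
      (fun K' => (J₀ ∪ K').erase q)
      (fun K' hK' => (tsum_M _).mpr ⟨J₀, hJ₀, K', (Finset.mem_filter.mp hK').1,
        hP K' (Finset.mem_filter.mp hK').1 (Finset.mem_filter.mp hK').2, rfl⟩)
      (xx (Sum.inl q) / liftF (vtL S T q) (S.flat.P J₀)) (div_ne_zero hx (lJ J₀ hJ₀)) ?_
    intro K' hK'
    rw [Finset.mem_filter] at hK'
    have h1 := tsum_P hV J₀ K' hJ₀ hK'.1 (hP K' hK'.1 hK'.2)
    have h2 := lJ J₀ hJ₀
    rw [div_mul_eq_mul_div, eq_div_iff h2, mul_comm _ (liftF (vtL S T q) (S.flat.P J₀)), ← h1,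
      mul_comm]
  rw [show (Net.tsum S T q).flat.M = (Net.tsum S T q).M from rfl, e]
  apply mon_mul hp'
  · obtain ⟨n, hn, h⟩ := hS J hJ a ha
    have hz := deg_zero v1 q J a ha n h
    have hz' : ∑ I ∈ S.M.filter (fun I => q ∉ I), n I = 0 := by
      have := Finset.sum_filter_add_sum_filter_not S.M (fun I => q ∈ I) n
      rw [hz, zero_add] at this
      rw [this]; exact hn
    rw [h, map_prod]
    simp only [map_zpow₀]
    rw [← Finset.prod_filter_mul_prod_filter_not S.flat.M (fun I => q ∈ I)]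
    apply mon_mul hp'
    · by_cases hex : ∃ J ∈ S.M, q ∈ J
      · obtain ⟨J₁, hJ₁, hqJ₁⟩ := hex
        obtain ⟨K₀, hK₀, hqK₀⟩ := hTne J₁ hJ₁ hqJ₁
        exact trL (fun I => q ∈ I) K₀ hK₀ (fun J _ h => Or.inl ⟨h, hqK₀⟩) n hz
      · have : S.flat.M.filter (fun I => q ∈ I) = ∅ := by
          rw [Finset.filter_eq_empty_iff]
          intro I hI hq
          exact hex ⟨I, hI, hq⟩
        rw [this, Finset.prod_empty]
        exact mon_one
    · by_cases hex : ∃ J ∈ S.M, q ∉ J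
      · obtain ⟨J₁, hJ₁, hqJ₁⟩ := hex
        obtain ⟨K₀, hK₀, hqK₀⟩ := hTne' J₁ hJ₁ hqJ₁
        exact trL (fun I => q ∉ I) K₀ hK₀ (fun J _ h => Or.inr ⟨h, hqK₀⟩) n hz'
      · have : S.flat.M.filter (fun I => ¬ q ∈ I) = ∅ := by
          rw [Finset.filter_eq_empty_iff]
          intro I hI hq
          exact hex ⟨I, hI, hq⟩
        rw [this, Finset.prod_empty]
        exact mon_one
  · obtain ⟨n, hn, h⟩ := hT K hK b hb
    have hz := deg_zero v2 q K b hb n h
    have hz' : ∑ I ∈ T.M.filter (fun I => q ∉ I), n I = 0 := by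
      have := Finset.sum_filter_add_sum_filter_not T.M (fun I => q ∈ I) n
      rw [hz, zero_add] at this
      rw [this]; exact hn
    rw [h, map_prod]
    simp only [map_zpow₀]
    rw [← Finset.prod_filter_mul_prod_filter_not T.flat.M (fun I => q ∈ I)]
    apply mon_mul hp'
    · by_cases hex : ∃ K ∈ T.M, q ∈ K
      · obtain ⟨K₁, hK₁, hqK₁⟩ := hex
        obtain ⟨J₀, hJ₀, hqJ₀⟩ := hSne K₁ hK₁ hqK₁
        exact trR (fun I => q ∈ I) J₀ hJ₀ (fun K _ h => Or.inr ⟨hqJ₀, h⟩) n hz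
      · have : T.flat.M.filter (fun I => q ∈ I) = ∅ := by
          rw [Finset.filter_eq_empty_iff]
          intro I hI hq
          exact hex ⟨I, hI, hq⟩
        rw [this, Finset.prod_empty]
        exact mon_one
    · by_cases hex : ∃ K ∈ T.M, q ∉ K
      · obtain ⟨K₁, hK₁, hqK₁⟩ := hex
        obtain ⟨J₀, hJ₀, hqJ₀⟩ := hSne' K₁ hK₁ hqK₁
        exact trR (fun I => q ∉ I) J₀ hJ₀ (fun K _ h => Or.inl ⟨hqJ₀, h⟩) n hz'
      · have : T.flat.M.filter (fun I => ¬ q ∈ I) = ∅ := by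
          rw [Finset.filter_eq_empty_iff]
          intro I hI hq
          exact hex ⟨I, hI, hq⟩
        rw [this, Finset.prod_empty]
        exact mon_one

end ABCT.H1
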