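import Pool.Agent.Helper93_ABCT.StmtK

/-!
# ABCT, module KMON: monomials with independent exponents are algebraically independent
-/

set_option autoImplicit false

open MvPolynomial

namespace PosGeom.H1

/-- Laurent monomial -/
noncomputable def lm {V K : Type*} [Field K] (y : V → K) (m : V →₀ ℤ) : K :=
  m.prod fun v n => y v ^ n

section

variable {V K : Type*} [Field K] (y : V → K)

theorem lm_zero : lm y 0 = 1 := by simp [lm]

theorem lm_add (hy : ∀ v, y v ≠ 0) (m n : V →₀ ℤ) : lm y (m + n) = lm y m * lm y n := by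
  classical
  rw [lm, Finsupp.prod_add_index]
  · rfl
  · intro v _; simp
  · intro v _ a b; exact zpow_add₀ (hy v) a b

theorem lm_nsmul (hy : ∀ v, y v ≠ 0) (m : V →₀ ℤ) (k : ℕ) : lm y (k • m) = lm y m ^ k := by
  induction k with
  | zero => simp [lm_zero]
  | succ k ih => rw [succ_nsmul, lm_add y hy, ih, pow_succ]

theorem lm_sum (hy : ∀ v, y v ≠ 0) {ι : Type*} (s : Finset ι) (f : ι → V →₀ ℤ) :
    lm y (∑ i ∈ s, f i) = ∏ i ∈ s, lm y (f i) := by
  classical
  induction s using Finset.induction_on with
  | empty => simp [lm_zero]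
  | insert a s ha ih => rw [Finset.sum_insert ha, Finset.prod_insert ha, lm_add y hy, ih]

theorem lm_nat (g : V →₀ ℕ) (m : V →₀ ℤ) (h : ∀ v, m v = (g v : ℤ)) :
    lm y m = g.prod fun v n => y v ^ n := by
  classical
  have hs : m.support = g.support := by
    ext v
    rw [Finsupp.mem_support_iff, Finsupp.mem_support_iff, h v]
    simp
  rw [lm, Finsupp.prod, Finsupp.prod, hs]
  exact Finset.prod_congr rfl fun v _ => by rw [h v, zpow_natCast]

theorem lm_ne_zero (hy : ∀ v, y v ≠ 0) (m : V →₀ ℤ) : lm y m ≠ 0 :=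
  Finset.prod_ne_zero_iff.mpr fun v _ => zpow_ne_zero _ (hy v)

end

theorem kmon : KmonStmt := by
  classical
  intro K _ _ σ z hz n b hb
  have hz0 : ∀ v, z v ≠ 0 := fun v => hz.ne_zero v
  show AlgebraicIndependent ℂ fun j => lm z (b j)
  rw [algebraicIndependent_iff]
  intro f hf
  by_contra hne
  -- exponents
  let e : (Fin n →₀ ℕ) → (σ →₀ ℤ) := fun m => ∑ j, m j • b j
  have he : ∀ m m', e m = e m' → m = m' := by
    intro m m' h
    have h1 : ∑ j, (((m j : ℤ) - (m' j : ℤ)) • b j) = 0 := by
      have : ∀ j, ((m j : ℤ) - (m' j : ℤ)) • b j = m j • b j - m' j • b j := by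
        intro j
        rw [sub_smul, natCast_zsmul, natCast_zsmul]
      simp only [this, Finset.sum_sub_distrib]
      exact sub_eq_zero.mpr h
    have h2 := Fintype.linearIndependent_iff.mp hb _ h1
    ext j
    have := h2 j
    omega
  -- the shift
  let s : σ →₀ ℕ := ∑ m ∈ f.support, (e m).mapRange Int.natAbs rfl
  have hs : ∀ m ∈ f.support, ∀ v, 0 ≤ (s v : ℤ) + e m v := by
    intro m hm v
    have h1 : ((e m).mapRange Int.natAbs rfl) v ≤ s v := by
      have : ((e m).mapRange Int.natAbs rfl) ≤ s :=
        Finset.single_le_sum (f := fun m => (e m).mapRange Int.natAbs rfl)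
          (fun _ _ => zero_le) hm
      exact this v
    rw [Finsupp.mapRange_apply] at h1
    omega
  let sz : σ →₀ ℤ := s.mapRange (fun k : ℕ => (k : ℤ)) rfl
  have hsz : ∀ v, sz v = (s v : ℤ) := fun v => Finsupp.mapRange_apply
  let g : (Fin n →₀ ℕ) → (σ →₀ ℕ) := fun m => (sz + e m).mapRange Int.toNat rfl
  have hg : ∀ m ∈ f.support, ∀ v, (sz + e m) v = (g m v : ℤ) := by
    intro m hm v
    have h1 := hs m hm v
    show (sz + e m) v = (((sz + e m).mapRange Int.toNat rfl) v : ℤ)
    rw [Finsupp.mapRange_apply, Finsupp.add_apply, hsz]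
    omega
  have hginj : ∀ m ∈ f.support, ∀ m' ∈ f.support, g m = g m' → m = m' := by
    intro m hm m' hm' h
    apply he
    ext v
    have h1 := hg m hm v
    have h2 := hg m' hm' v
    rw [h, ← h2, Finsupp.add_apply, Finsupp.add_apply] at h1
    linarith
  -- the polynomial
  let F : MvPolynomial σ ℂ := ∑ m ∈ f.support, monomial (g m) (f.coeff m)
  have hF : aeval z F = 0 := by
    have h1 : aeval z F = lm z sz * aeval (fun j => lm z (b j)) f := by
      rw [aeval_def (f := fun j => lm z (b j)), eval₂_eq', Finset.mul_sum]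
      show aeval z (∑ m ∈ f.support, monomial (g m) (f.coeff m)) = _
      rw [map_sum]
      apply Finset.sum_congr rfl
      intro m hm
      rw [aeval_monomial, ← lm_nat z (g m) (sz + e m) (hg m hm), lm_add z hz0]
      have h2 : lm z (e m) = ∏ j, lm z (b j) ^ m j := by
        show lm z (∑ j, m j • b j) = _
        rw [lm_sum z hz0]
        exact Finset.prod_congr rfl fun j _ => lm_nsmul z hz0 _ _
      rw [h2]
      ring
    rw [h1, hf, mul_zero]
  have hF0 : F = 0 := by
    have := algebraicIndependent_iff.mp hz F hF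
    exact this
  obtain ⟨m0, hm0⟩ := support_nonempty.mpr hne
  have h3 : F.coeff (g m0) = f.coeff m0 := by
    show coeff (g m0) (∑ m ∈ f.support, monomial (g m) (f.coeff m)) = _
    rw [coeff_sum, Finset.sum_eq_single m0]
    · rw [coeff_monomial, if_pos rfl]
    · intro m hm hmm
      rw [coeff_monomial, if_neg]
      intro h
      exact hmm (hginj m hm m0 hm0 h)
    · intro h; exact absurd hm0 h
  rw [hF0, coeff_zero] at h3
  exact mem_support_iff.mp hm0 h3.symm

end PosGeom.H1
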