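import Pool.Agent.Helper93_ABCT.StmtK

/-!
# ABCT, module WSEM: the nonnegative part is semialgebraic
-/

set_option autoImplicit false

open MvPolynomial

namespace PosGeom.H1

variable {ι : Type} [Fintype ι]

/-- semialgebraic sets by finite index types -/
theorem semialg_of (J : Type) [Fintype J] (E N : J → Finset (MvPolynomial ι ℝ))
    (P : Set (ι → ℝ))
    (h : P = {x | ∃ j, (∀ F ∈ E j, eval x F = 0) ∧ (∀ G ∈ N j, 0 < eval x G)}) : Semialg P := by
  refine ⟨Fintype.card J, fun i => E ((Fintype.equivFin J).symm i),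
    fun i => N ((Fintype.equivFin J).symm i), ?_⟩
  rw [h]
  ext x
  constructor
  · rintro ⟨j, hj⟩
    refine ⟨Fintype.equivFin J j, ?_⟩
    simp only [Equiv.symm_apply_apply]
    exact hj
  · rintro ⟨i, hi⟩
    exact ⟨_, hi⟩

/-- real part of a complex polynomial -/
noncomputable def reP (F : MvPolynomial ι ℂ) : MvPolynomial ι ℝ :=
  ∑ m ∈ F.support, monomial m (F.coeff m).re

/-- imaginary part of a complex polynomial -/
noncomputable def imP (F : MvPolynomial ι ℂ) : MvPolynomial ι ℝ :=
  ∑ m ∈ F.support, monomial m (F.coeff m).im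

theorem aeval_real (F : MvPolynomial ι ℂ) (x : ι → ℝ) :
    aeval (fun i => ((x i : ℝ) : ℂ)) F =
      ∑ m ∈ F.support, F.coeff m * ((∏ i, x i ^ m i : ℝ) : ℂ) := by
  rw [aeval_def, eval₂_eq']
  apply Finset.sum_congr rfl
  intro m _
  rw [Complex.ofReal_prod]
  simp

theorem eval_reP (F : MvPolynomial ι ℂ) (x : ι → ℝ) :
    eval x (reP F) = (aeval (fun i => ((x i : ℝ) : ℂ)) F).re := by
  rw [aeval_real, reP, map_sum, Complex.re_sum]
  apply Finset.sum_congr rfl
  intro m _
  rw [eval_monomial, Complex.re_mul_ofReal, Finsupp.prod_fintype _ _ (by simp)]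

theorem eval_imP (F : MvPolynomial ι ℂ) (x : ι → ℝ) :
    eval x (imP F) = (aeval (fun i => ((x i : ℝ) : ℂ)) F).im := by
  rw [aeval_real, imP, map_sum, Complex.im_sum]
  apply Finset.sum_congr rfl
  intro m _
  rw [eval_monomial, Complex.im_mul_ofReal, Finsupp.prod_fintype _ _ (by simp)]

theorem semialg_nonneg (V : PVar ι) :
    Semialg {x | x ∈ V.RP ∧ ((∀ I, 0 ≤ x I) ∨ (∀ I, x I ≤ 0))} := by
  classical
  obtain ⟨S, hS⟩ : V.I.FG := (inferInstance : IsNoetherianRing (MvPolynomial ι ℂ)).noetherian V.I
  have hzero : ∀ x : ι → ℝ, (∀ F ∈ V.I, aeval (fun i => ((x i : ℝ) : ℂ)) F = 0) ↔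
      ∀ F ∈ S, aeval (fun i => ((x i : ℝ) : ℂ)) F = 0 := by
    intro x
    constructor
    · intro h F hF
      apply h
      rw [← hS]
      exact Ideal.subset_span hF
    · intro h F hF
      have h1 : V.I ≤ RingHom.ker (aeval (fun i => ((x i : ℝ) : ℂ)) :
          MvPolynomial ι ℂ →ₐ[ℂ] ℂ) := by
        rw [← hS]
        exact Ideal.span_le.mpr fun G hG => h G hG
      exact h1 hF
  refine semialg_of ({A : Finset ι // A.Nonempty} × Bool)
    (fun j => (S.image reP ∪ S.image imP) ∪ (Finset.univ.filter fun i => i ∉ j.1.1).image X)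
    (fun j => j.1.1.image fun i => if j.2 then (X i : MvPolynomial ι ℝ) else -X i) _ ?_
  ext x
  constructor
  · rintro ⟨⟨hx0, hx⟩, hsgn⟩
    have hA : (Finset.univ.filter fun i => x i ≠ 0).Nonempty := by
      by_contra h
      rw [Finset.not_nonempty_iff_eq_empty, Finset.filter_eq_empty_iff] at h
      apply hx0
      funext i
      simpa using h (Finset.mem_univ i)
    have hE : ∀ F ∈ (S.image reP ∪ S.image imP) ∪
        (Finset.univ.filter fun i => i ∉ Finset.univ.filter fun i => x i ≠ 0).image X,
        eval x F = 0 := by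
      intro F hF
      rw [Finset.mem_union, Finset.mem_union] at hF
      rcases hF with (hF | hF) | hF
      · obtain ⟨G, hG, rfl⟩ := Finset.mem_image.mp hF
        rw [eval_reP, (hzero x).mp hx G hG, Complex.zero_re]
      · obtain ⟨G, hG, rfl⟩ := Finset.mem_image.mp hF
        rw [eval_imP, (hzero x).mp hx G hG, Complex.zero_im]
      · obtain ⟨i, hi, rfl⟩ := Finset.mem_image.mp hF
        rw [eval_X]
        simpa using hi
    rcases hsgn with h | h
    · refine ⟨(⟨_, hA⟩, true), hE, ?_⟩
      intro G hG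
      obtain ⟨i, hi, rfl⟩ := Finset.mem_image.mp hG
      simp only [if_true, eval_X]
      exact lt_of_le_of_ne (h i) (Ne.symm (Finset.mem_filter.mp hi).2)
    · refine ⟨(⟨_, hA⟩, false), hE, ?_⟩
      intro G hG
      obtain ⟨i, hi, rfl⟩ := Finset.mem_image.mp hG
      simp only [Bool.false_eq_true, if_false, map_neg, eval_X]
      have := lt_of_le_of_ne (h i) (Finset.mem_filter.mp hi).2
      linarith
  · rintro ⟨⟨⟨A, hA⟩, s⟩, hE, hN⟩
    have h0 : ∀ i, i ∉ A → x i = 0 := by
      intro i hi
      have := hE (X i) (Finset.mem_union_right _ (Finset.mem_image_of_mem _ (by simpa using hi)))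
      rwa [eval_X] at this
    have hz : ∀ F ∈ S, aeval (fun i => ((x i : ℝ) : ℂ)) F = 0 := by
      intro F hF
      apply Complex.ext
      · rw [← eval_reP]
        exact hE _ (Finset.mem_union_left _ (Finset.mem_union_left _ (Finset.mem_image_of_mem _ hF)))
      · rw [← eval_imP]
        exact hE _ (Finset.mem_union_left _ (Finset.mem_union_right _ (Finset.mem_image_of_mem _ hF)))
    cases s with
    | true =>
      have h1 : ∀ i ∈ A, 0 < x i := by
        intro i hi
        have := hN (X i) (Finset.mem_image.mpr ⟨i, hi, by simp⟩)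
        rwa [eval_X] at this
      refine ⟨⟨?_, (hzero x).mpr hz⟩, Or.inl ?_⟩
      · obtain ⟨i, hi⟩ := hA
        intro h
        have := h1 i hi
        rw [h] at this
        exact lt_irrefl _ this
      · intro i
        by_cases hi : i ∈ A
        · exact (h1 i hi).le
        · rw [h0 i hi]
    | false =>
      have h1 : ∀ i ∈ A, x i < 0 := by
        intro i hi
        have := hN (-X i) (Finset.mem_image.mpr ⟨i, hi, by simp⟩)
        rw [map_neg, eval_X] at this
        linarith
      refine ⟨⟨?_, (hzero x).mpr hz⟩, Or.inr ?_⟩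
      · obtain ⟨i, hi⟩ := hA
        intro h
        have := h1 i hi
        rw [h] at this
        exact lt_irrefl _ this
      · intro i
        by_cases hi : i ∈ A
        · exact (h1 i hi).le
        · rw [h0 i hi]

theorem wsem : WsemStmt := fun k n hk hkn => semialg_nonneg (ABCT k n hk hkn)

end PosGeom.H1
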